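import Pool.Agent.helper16.EXC.Spec3

/-!
# Project EXC (MP_561ff4_al), block 3: row ZSL (`σ^ℓ = 1`)
-/

set_option autoImplicit false

open Finset

namespace Pool.Agent.EXC

theorem ZSL_step {n : ℕ} {C : Matrix (Fin n) (Fin n) ℤ} [IsC C] {F : Type} [Field F]
    {x : MulAut (EG C F)} {σ : F ≃+* F} {a : Lm C F} (ha : Ex C a)
    (hx : ∀ a : Lm C F, Ex C a → ∃ b, Ex C b ∧ Im C x a b)
    (hσ : ∀ a b : Lm C F, Ex C a → Ex C b → Im C x a b → ∃ c, c ≠ 0 ∧ SL C x σ a b c) (k : ℕ) :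
    ∃ (b : Lm C F) (c : F), Ex C b ∧ c ≠ 0 ∧ ∀ (u : F) (h : EG C F),
      IsX C a u (h : Lm C F ≃ₗ[F] Lm C F) →
      IsX C b (c * (⇑σ)^[k] u) (((x ^ k) h : EG C F) : Lm C F ≃ₗ[F] Lm C F) := by
  induction k with
  | zero =>
    refine ⟨a, 1, ha, one_ne_zero, fun u h hu => ?_⟩
    rw [one_mul, Function.iterate_zero_apply, pow_zero]
    exact hu
  | succ k ih =>
    obtain ⟨b, c, hb, hc, hk⟩ := ih
    obtain ⟨b', hb', him⟩ := hx b hb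
    obtain ⟨d, hd, hsl⟩ := hσ b b' hb hb' him
    refine ⟨b', d * σ c, hb', mul_ne_zero hd ?_, fun u h hu => ?_⟩
    · exact fun h0 => hc ((map_eq_zero σ).1 h0)
    · have h1 := hsl _ _ (hk u h hu)
      rw [map_mul, ← mul_assoc] at h1
      rw [Function.iterate_succ_apply', pow_succ', MulAut.mul_apply]
      exact h1

theorem ZSL (hIMX : IMX_stmt) (hEXF : EXF_stmt) (hUNQ : UNQ_stmt) (hXAU : XAU_stmt)
    (hNBR : NBR_stmt) : ZSL_stmt := by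
  intro n C _ F _ j0 θ δ hE x hx σ hσ ℓ hℓ u
  obtain ⟨hβ, -⟩ := hNBR n C j0 θ δ hE
  obtain ⟨-, hex, hfact, -⟩ := hEXF n C F hβ
  have ha : Ex C (E C θ : Lm C F) := hex θ hE.th2
  obtain ⟨b, c, hb, hc, hk⟩ := ZSL_step ha (hIMX n C F j0 θ δ hE x hx).1 hσ ℓ
  rw [hℓ] at hk
  obtain ⟨hXb, -, -, -, -, -, hinj, -, -⟩ := hfact b hb
  obtain ⟨-, -, -, -, hall, -, -, -, -⟩ := hfact _ ha
  have h4 := (hXAU n C F b hXb).2.2.2
  -- the parameter `1`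
  obtain ⟨h₁, hm₁, hx₁⟩ := hall 1
  have e1 : IsX C b c h₁ := by
    have h := hk 1 ⟨h₁, hm₁⟩ hx₁
    rw [Function.iterate_fixed (map_one σ) ℓ, mul_one] at h
    exact h
  have e2 : (E C θ : Lm C F) = c • b := hUNQ n C F j0 θ δ hE _ _ _ _ ha hb hx₁ e1
  -- the parameter `u`
  obtain ⟨h₂, hm₂, hx₂⟩ := hall u
  have e3 : IsX C b (c * (⇑σ)^[ℓ] u) h₂ := hk u ⟨h₂, hm₂⟩ hx₂
  have e4 : IsX C b (c * u) h₂ := by
    intro v
    rw [hx₂ v, e2, (h4 c).2 u v]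
  exact (mul_left_cancel₀ hc (hinj _ _ _ e4 e3)).symm

end Pool.Agent.EXC
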